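import Pool.Agent.Moser3.Vol

set_option autoImplicit false

/-! The packing number of a ball and the packing density. -/

namespace Pool.Agent.Moser3

open MeasureTheory Metric Filter Topology

/-- The possible numbers of elements of a separated set in the closed ball of radius `R`. -/
def cards (R : ℝ) : Set ℕ :=
  {k | ∃ A : Finset E3, Sep A ∧ (∀ p ∈ A, dist p 0 ≤ R) ∧ A.card = k}

/-- The largest number of elements of a separated set in the closed ball of radius `R`. -/
noncomputable def pack (R : ℝ) : ℕ := sSup (cards R)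

lemma cards_nonempty (R : ℝ) : (cards R).Nonempty :=
  ⟨0, ∅, by intro x hx; simp at hx, by simp, by simp⟩

lemma cards_bdd (R : ℝ) : BddAbove (cards R) := by
  by_cases hR : 0 ≤ R
  · refine ⟨⌈(R + 1) ^ 3⌉₊, ?_⟩
    rintro k ⟨A, hA, hAR, rfl⟩
    have := card_le_volume hA hR hAR
    exact_mod_cast this.trans (Nat.le_ceil _)
  · refine ⟨0, ?_⟩
    rintro k ⟨A, hA, hAR, rfl⟩
    rw [Nat.le_zero, Finset.card_eq_zero, Finset.eq_empty_iff_forall_notMem]
    intro p hp
    have := hAR p hp
    have := dist_nonneg (x := p) (y := (0 : E3))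
    linarith

lemma pack_mem (R : ℝ) : pack R ∈ cards R := Nat.sSup_mem (cards_nonempty R) (cards_bdd R)

lemma card_le_pack {A : Finset E3} (hA : Sep A) {R : ℝ} (h : ∀ p ∈ A, dist p 0 ≤ R) :
    A.card ≤ pack R := le_csSup (cards_bdd R) ⟨A, hA, h, rfl⟩

lemma pack_le {R : ℝ} (hR : 0 ≤ R) : (pack R : ℝ) ≤ (R + 1) ^ 3 := by
  obtain ⟨A, hA, hAR, h⟩ := pack_mem R
  rw [← h]
  exact card_le_volume hA hR hAR

/-- The number of points in any ball of radius `R` is at most `pack R`. -/
lemma cnt_le_pack {A : Finset E3} (hA : Sep A) (x : E3) (R : ℝ) : cnt A x R ≤ pack R := by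
  unfold cnt
  rw [← card_image_add _ (-x)]
  apply card_le_pack ((hA.mono (Finset.filter_subset _ _)).image_add (-x))
  intro p hp
  simp only [Finset.mem_image, Finset.mem_filter] at hp
  obtain ⟨q, ⟨_, hq⟩, rfl⟩ := hp
  rw [dist_zero_right, neg_add_eq_sub, ← dist_eq_norm]
  exact hq

lemma one_le_pack {R : ℝ} (hR : 0 ≤ R) : 1 ≤ pack R := by
  have : ({0} : Finset E3).card ≤ pack R := by
    apply card_le_pack
    · intro x hx y hy hxy
      simp only [Finset.mem_singleton] at hx hy
      exact absurd (hx.trans hy.symm) hxy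
    · intro p hp
      simp only [Finset.mem_singleton] at hp
      simp [hp, hR]
  simpa using this

/-- Replacement: a separated set of `pack T` points in the ball of radius `T` has at least
`pack R` points at distance at most `R + 2` from `x`, if `|x| ≤ T - R`. -/
lemma replace {P : Finset E3} (hP : Sep P) {T R : ℝ}
    (hPT : ∀ p ∈ P, dist p 0 ≤ T) (hcard : P.card = pack T) {x : E3} (hx : dist x 0 ≤ T - R) :
    pack R ≤ cnt P x (R + 2) := by
  obtain ⟨Q, hQ, hQR, hQc⟩ := pack_mem R
  set P1 := P.filter (fun p => ¬ dist p x ≤ R + 2) with hP1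
  set Q1 := Q.image (fun p => x + p) with hQ1
  have hQ1d : ∀ q ∈ Q1, dist q x ≤ R := by
    intro q hq
    rw [hQ1, Finset.mem_image] at hq
    obtain ⟨a, ha, rfl⟩ := hq
    have := hQR a ha
    rwa [dist_comm, dist_self_add_right, ← dist_zero_right]
  have hfar : ∀ p ∈ P1, ∀ q ∈ Q1, 2 ≤ dist p q := by
    intro p hp q hq
    have h1 := hQ1d q hq
    rw [hP1, Finset.mem_filter, not_le] at hp
    have h2 := dist_triangle p q x
    linarith [hp.2]
  have hdisj : Disjoint P1 Q1 := by
    rw [Finset.disjoint_left]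
    intro a ha hb
    have := hfar a ha a hb
    rw [dist_self] at this
    linarith
  have hsep : Sep (P1 ∪ Q1) := by
    intro a ha b hb hab
    rw [Finset.mem_union] at ha hb
    rcases ha with ha | ha <;> rcases hb with hb | hb
    · exact hP a (Finset.mem_of_mem_filter _ ha) b (Finset.mem_of_mem_filter _ hb) hab
    · exact hfar a ha b hb
    · rw [dist_comm]; exact hfar b hb a ha
    · exact hQ.image_add x a ha b hb hab
  have hle : (P1 ∪ Q1).card ≤ pack T := by
    apply card_le_pack hsep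
    intro a ha
    rw [Finset.mem_union] at ha
    rcases ha with ha | ha
    · exact hPT a (Finset.mem_of_mem_filter _ ha)
    · have h1 := hQ1d a ha
      have h2 := dist_triangle a x 0
      linarith
  rw [Finset.card_union_of_disjoint hdisj, hQ1, card_image_add, hQc, ← hcard] at hle
  have hsplit : cnt P x (R + 2) + P1.card = P.card := by
    unfold cnt
    exact Finset.card_filter_add_card_filter_not (s := P) (fun p => dist p x ≤ R + 2)
  omega

lemma pack_ratio1 {R T : ℝ} (hR : 0 ≤ R) (hT : R ≤ T) :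
    (pack R : ℝ) * (T - R) ^ 3 ≤ pack T * (R + 2) ^ 3 := by
  obtain ⟨P, hP, hPT, hPc⟩ := pack_mem T
  have := avg_ge P (S := T - R) (s := R + 2) (k := pack R) (by linarith) (by linarith)
    (fun x hx => by exact_mod_cast replace hP hPT hPc hx)
  rwa [hPc] at this

lemma pack_ratio2 {R T : ℝ} (hR : 0 ≤ R) (hT : 0 ≤ T) :
    (pack T : ℝ) * R ^ 3 ≤ pack R * (T + R) ^ 3 := by
  obtain ⟨P, hP, hPT, hPc⟩ := pack_mem T
  have := avg_le P (T := T) (s := R) (k := pack R) hT hR hPT
    (fun x => by exact_mod_cast cnt_le_pack hP x R)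
  rwa [hPc] at this

/-- The packing density. -/
noncomputable def dens : ℝ := ⨆ R : {R : ℝ // 0 ≤ R}, (pack R.1 : ℝ) / (R.1 + 2) ^ 3

lemma dens_bdd : BddAbove (Set.range (fun R : {R : ℝ // 0 ≤ R} => (pack R.1 : ℝ) / (R.1 + 2) ^ 3)) := by
  refine ⟨1, ?_⟩
  rintro _ ⟨⟨R, hR⟩, rfl⟩
  have h := pack_le hR
  have h2 : (R + 1) ^ 3 ≤ (R + 2) ^ 3 := by gcongr; linarith
  simp only
  rw [div_le_one (by positivity)]
  linarith

lemma pack_le_dens {R : ℝ} (hR : 0 ≤ R) : (pack R : ℝ) ≤ dens * (R + 2) ^ 3 := by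
  have h := le_ciSup dens_bdd ⟨R, hR⟩
  simp only at h
  have h3 : (0 : ℝ) < (R + 2) ^ 3 := by positivity
  rw [div_le_iff₀ h3] at h
  exact h

lemma dens_le_one : dens ≤ 1 := by
  haveI : Nonempty {R : ℝ // 0 ≤ R} := ⟨⟨0, le_rfl⟩⟩
  apply ciSup_le
  rintro ⟨R, hR⟩
  have h := pack_le hR
  have h2 : (R + 1) ^ 3 ≤ (R + 2) ^ 3 := by gcongr; linarith
  simp only
  rw [div_le_one (by positivity)]
  linarith

lemma eighth_le_dens : 1 / 8 ≤ dens := by
  have h := pack_le_dens (le_refl (0 : ℝ))
  have h1 : (1 : ℝ) ≤ pack 0 := by exact_mod_cast one_le_pack (le_refl (0 : ℝ))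
  norm_num at h
  linarith

lemma dens_pos : 0 < dens := lt_of_lt_of_le (by norm_num) eighth_le_dens

/-- Lower bound for the packing number. -/
lemma dens_le_pack {R : ℝ} (hR : 0 ≤ R) : dens * R ^ 3 ≤ pack R := by
  rcases hR.eq_or_lt with h0 | hRpos
  · rw [← h0]; simp
  have hR3 : (0 : ℝ) < R ^ 3 := by positivity
  rw [← le_div_iff₀ hR3]
  haveI : Nonempty {R : ℝ // 0 ≤ R} := ⟨⟨0, le_rfl⟩⟩
  apply ciSup_le
  rintro ⟨S, hS⟩
  simp only
  -- limit T → ∞
  have hlim : Tendsto (fun T : ℝ => (pack R : ℝ) / R ^ 3 * ((T + R) / (T - S)) ^ 3) atTop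
      (𝓝 ((pack R : ℝ) / R ^ 3 * 1 ^ 3)) := by
    apply Tendsto.const_mul
    apply Tendsto.pow
    have h1 : Tendsto (fun T : ℝ => 1 + (R + S) / (T - S)) atTop (𝓝 (1 + 0)) := by
      apply Tendsto.const_add
      apply Tendsto.div_atTop tendsto_const_nhds
      exact tendsto_atTop_add_const_right _ _ tendsto_id
    rw [add_zero] at h1
    apply h1.congr'
    filter_upwards [eventually_gt_atTop S] with T hT
    have : T - S ≠ 0 := by linarith
    field_simp
    ring
  rw [one_pow, mul_one] at hlim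
  apply ge_of_tendsto hlim
  filter_upwards [eventually_gt_atTop S] with T hT
  have hTS : 0 < T - S := by linarith
  have h1 := pack_ratio1 hS hT.le
  have h2 := pack_ratio2 hR (hS.trans hT.le)
  rw [div_pow, div_mul_div_comm, div_le_div_iff₀ (by positivity) (by positivity)]
  have h3 : (0 : ℝ) ≤ R ^ 3 := hR3.le
  have h4 : (0 : ℝ) ≤ (S + 2) ^ 3 := by positivity
  calc (pack S : ℝ) * (R ^ 3 * (T - S) ^ 3) = (pack S * (T - S) ^ 3) * R ^ 3 := by ring
    _ ≤ (pack T * (S + 2) ^ 3) * R ^ 3 := by gcongr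
    _ = (pack T * R ^ 3) * (S + 2) ^ 3 := by ring
    _ ≤ (pack R * (T + R) ^ 3) * (S + 2) ^ 3 := by gcongr
    _ = pack R * (T + R) ^ 3 * (S + 2) ^ 3 := by ring

/-- The limit characterisation of the density. -/
lemma tendsto_pack : Tendsto (fun R : ℝ => (pack R : ℝ) / R ^ 3) atTop (𝓝 dens) := by
  have hup : Tendsto (fun R : ℝ => dens * ((R + 2) / R) ^ 3) atTop (𝓝 (dens * 1 ^ 3)) := by
    apply Tendsto.const_mul
    apply Tendsto.pow
    have h1 : Tendsto (fun T : ℝ => 1 + 2 / T) atTop (𝓝 (1 + 0)) := by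
      apply Tendsto.const_add
      exact Tendsto.div_atTop tendsto_const_nhds tendsto_id
    rw [add_zero] at h1
    apply h1.congr'
    filter_upwards [eventually_gt_atTop 0] with T hT
    field_simp
  rw [one_pow, mul_one] at hup
  apply tendsto_of_tendsto_of_tendsto_of_le_of_le' tendsto_const_nhds hup
  · filter_upwards [eventually_gt_atTop 0] with R hR
    rw [le_div_iff₀ (by positivity)]
    exact dens_le_pack hR.le
  · filter_upwards [eventually_gt_atTop 0] with R hR
    rw [div_pow, ← mul_div_assoc]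
    apply div_le_div_of_nonneg_right (pack_le_dens hR.le) (by positivity)

end Pool.Agent.Moser3
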