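import Pool.Agent.Moser3.Dens

set_option autoImplicit false

/-! The lower bound for the second moment. -/

namespace Pool.Agent.Moser3

open MeasureTheory Metric Filter Topology

lemma layer (d r : ℝ) (hd : 0 ≤ d) (hr : 0 ≤ r) :
    ∫ t in (0 : ℝ)..r, (Set.Iio d).indicator (fun t => 2 * t) t ≤ d ^ 2 := by
  rw [intervalIntegral.integral_of_le hr, setIntegral_indicator measurableSet_Iio]
  have h1 : ∫ t in Set.Ioc 0 r ∩ Set.Iio d, 2 * t ≤ ∫ t in Set.Ioc 0 d, 2 * t := by
    apply setIntegral_mono_set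
    · exact (by fun_prop : Continuous (fun t : ℝ => 2 * t)).integrableOn_Ioc
    · filter_upwards [ae_restrict_mem measurableSet_Ioc] with t ht
      simp only [Pi.zero_apply]
      linarith [ht.1]
    · apply HasSubset.Subset.eventuallyLE
      rintro t ⟨h1, h2⟩
      exact ⟨h1.1, le_of_lt h2⟩
  refine h1.trans (le_of_eq ?_)
  rw [← intervalIntegral.integral_of_le hd, intervalIntegral.integral_const_mul, integral_id]
  ring

lemma intable (d r : ℝ) :
    IntervalIntegrable ((Set.Iio d).indicator (fun t : ℝ => 2 * t)) volume 0 r := by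
  rw [intervalIntegrable_iff]
  apply Integrable.indicator _ measurableSet_Iio
  exact ((by fun_prop : Continuous (fun t : ℝ => 2 * t)).intervalIntegrable 0 r).def'

/-- The number of points of a separated set in a ball. -/
lemma cnt_le {A : Finset E3} (hA : Sep A) (x : E3) {r : ℝ} (hr : 0 ≤ r) :
    (cnt A x r : ℝ) ≤ dens * (r + 2) ^ 3 :=
  le_trans (by exact_mod_cast cnt_le_pack hA x r) (pack_le_dens hr)

/-- Lower bound for the second moment. -/
lemma moment_ge {A : Finset E3} (hA : Sep A) (x : E3) {R : ℝ} (hR : 0 ≤ R)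
    (hm : dens * R ^ 3 = A.card) :
    3 / 5 * (A.card * R ^ 2) - 4 * (A.card * R) ≤ ∑ p ∈ A, dist p x ^ 2 := by
  have hm0 : (0 : ℝ) ≤ A.card := by positivity
  rcases lt_or_ge R 2 with h2 | h2
  · have : 3 / 5 * (A.card * R ^ 2) - 4 * (A.card * R) ≤ 0 := by
      have : 3 / 5 * (A.card * R ^ 2) - 4 * (A.card * R) = A.card * (R * (3 / 5 * R - 4)) := by ring
      rw [this]
      apply mul_nonpos_of_nonneg_of_nonpos hm0
      apply mul_nonpos_of_nonneg_of_nonpos hR
      linarith
    exact this.trans (Finset.sum_nonneg (fun p _ => by positivity))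
  have hr : (0 : ℝ) ≤ R - 2 := by linarith
  set r := R - 2 with hrdef
  have h1 : ∑ p ∈ A, ∫ t in (0 : ℝ)..r, (Set.Iio (dist p x)).indicator (fun t => 2 * t) t
      ≤ ∑ p ∈ A, dist p x ^ 2 :=
    Finset.sum_le_sum (fun p _ => layer _ r dist_nonneg hr)
  rw [← intervalIntegral.integral_finset_sum (fun p _ => intable _ r)] at h1
  refine le_trans ?_ h1
  have h3 : ∫ t in (0 : ℝ)..r, (2 * A.card * t - 2 * dens * (t + 2) ^ 4) ≤
      ∫ t in (0 : ℝ)..r, ∑ p ∈ A, (Set.Iio (dist p x)).indicator (fun t => 2 * t) t := by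
    apply intervalIntegral.integral_mono_on hr
    · exact (by fun_prop : Continuous
        (fun t : ℝ => 2 * A.card * t - 2 * dens * (t + 2) ^ 4)).intervalIntegrable _ _
    · have hs := IntervalIntegrable.sum A (fun p _ => intable (dist p x) r)
      have he : (∑ p ∈ A, (Set.Iio (dist p x)).indicator (fun t : ℝ => 2 * t)) =
          fun u => ∑ p ∈ A, (Set.Iio (dist p x)).indicator (fun t : ℝ => 2 * t) u := by
        ext u
        simp [Finset.sum_apply]
      rwa [he] at hs
    · intro t ht
      have e1 : ∑ p ∈ A, (Set.Iio (dist p x)).indicator (fun t => 2 * t) t =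
          2 * t * (A.card - cnt A x t) := by
        have e2 : ∀ p ∈ A, (Set.Iio (dist p x)).indicator (fun t => 2 * t) t =
            2 * t * (1 - (if dist p x ≤ t then 1 else 0)) := by
          intro p _
          by_cases h : dist p x ≤ t
          · rw [Set.indicator_of_notMem (by simpa using h), if_pos h]; ring
          · rw [Set.indicator_of_mem (by simpa using h), if_neg h]; ring
        rw [Finset.sum_congr rfl e2, ← Finset.mul_sum, Finset.sum_sub_distrib]
        unfold cnt
        rw [Finset.card_filter]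
        simp
      rw [e1]
      have h4 := cnt_le hA x ht.1
      have ht0 := ht.1
      have h5 : 2 * dens * (t + 2) ^ 4 ≥ 2 * t * (dens * (t + 2) ^ 3) := by
        have : (0 : ℝ) ≤ dens * (t + 2) ^ 3 := mul_nonneg dens_pos.le (by positivity)
        nlinarith
      have h6 : 2 * t * (cnt A x t : ℝ) ≤ 2 * t * (dens * (t + 2) ^ 3) := by gcongr
      nlinarith
  refine le_trans ?_ h3
  have hF : ∀ t ∈ Set.uIcc 0 r, HasDerivAt
      (fun t : ℝ => A.card * t ^ 2 - 2 / 5 * dens * (t + 2) ^ 5)
      (2 * A.card * t - 2 * dens * (t + 2) ^ 4) t := by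
    intro t _
    have d1 : HasDerivAt (fun t : ℝ => (A.card : ℝ) * t ^ 2) (A.card * (2 * t)) t := by
      simpa using (hasDerivAt_pow 2 t).const_mul (A.card : ℝ)
    have d2 : HasDerivAt (fun t : ℝ => 2 / 5 * dens * (t + 2) ^ 5)
        (2 / 5 * dens * (5 * (t + 2) ^ 4)) t := by
      have := (((hasDerivAt_id t).add_const (2 : ℝ)).pow 5).const_mul (2 / 5 * dens)
      simpa using this
    refine (d1.sub d2).congr_deriv ?_
    ring
  rw [intervalIntegral.integral_eq_sub_of_hasDerivAt hF
    ((by fun_prop : Continuous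
        (fun t : ℝ => 2 * A.card * t - 2 * dens * (t + 2) ^ 4)).intervalIntegrable _ _)]
  rw [← hm, hrdef]
  have hd := dens_pos
  have key : dens * R ^ 3 * (R - 2) ^ 2 - 2 / 5 * dens * (R - 2 + 2) ^ 5 -
      (dens * R ^ 3 * 0 ^ 2 - 2 / 5 * dens * (0 + 2) ^ 5) -
      (3 / 5 * (dens * R ^ 3 * R ^ 2) - 4 * (dens * R ^ 3 * R)) =
      dens * (4 * R ^ 3 + 64 / 5) := by ring
  have : 0 ≤ dens * (4 * R ^ 3 + 64 / 5) := by positivity
  linarith

end Pool.Agent.Moser3
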