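import Pool.Agent.Moser3.Up

set_option autoImplicit false

/-! Clusters of exactly `n` points, and the two-sided estimate. -/

namespace Pool.Agent.Moser3

open MeasureTheory Metric Filter Topology

lemma one_le_rad {m : ℝ} (hm : 1 ≤ m) : 1 ≤ rad m := by
  apply cube_le_cube (rad_nonneg (by linarith))
  have h := rad_cube (by linarith : (0 : ℝ) ≤ m)
  have h1 := dens_le_one
  have h2 : 0 ≤ rad m ^ 3 := pow_nonneg (rad_nonneg (by linarith)) 3
  nlinarith

/-- A cluster of `n` points with small second moment. -/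
lemma exists_cluster {n : ℕ} (hn : 1 ≤ n) :
    ∃ (B : Finset E3) (x : E3), Sep B ∧ B.card = n ∧
      ∑ p ∈ B, dist p x ^ 2 ≤ 3 / 5 * (n * rad n ^ 2) + 49 * n := by
  have hn1 : (1 : ℝ) ≤ n := by exact_mod_cast hn
  set R := rad (n : ℝ) with hR
  have hR1 : 1 ≤ R := one_le_rad hn1
  have hR0 : (0 : ℝ) ≤ R := by linarith
  have hDR : dens * R ^ 3 = n := rad_cube (by linarith)
  have hd := dens_pos
  obtain ⟨P, x, hP, hcnt, hPhi⟩ := exists_good hR0
  have hcnt' : n ≤ cnt P x (R + 2) := by
    have := hcnt R hR0 le_rfl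
    rw [hDR] at this
    exact_mod_cast this
  rw [Phi_eq P hR0 x] at hPhi
  set A := P.filter (fun p => dist p x ≤ R) with hA
  set A1 := P.filter (fun p => dist p x ≤ R + 2) with hA1
  set A2 := P.filter (fun p => dist p x ≤ R - 2) with hA2
  have hAA1 : A ⊆ A1 := by
    intro p hp
    rw [hA, Finset.mem_filter] at hp
    rw [hA1, Finset.mem_filter]
    exact ⟨hp.1, by linarith [hp.2]⟩
  have hA2A : A2 ⊆ A := by
    intro p hp
    rw [hA2, Finset.mem_filter] at hp
    rw [hA, Finset.mem_filter]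
    exact ⟨hp.1, by linarith [hp.2]⟩
  have hR5 : 2 / 5 * dens * R ^ 5 = 2 / 5 * (n * R ^ 2) := by
    rw [← hDR]; ring
  rw [Finset.sum_sub_distrib, Finset.sum_const, nsmul_eq_mul] at hPhi
  rcases le_or_gt A.card n with hc | hc
  · -- add points
    obtain ⟨B, hAB, hBA1, hBc⟩ := Finset.exists_subsuperset_card_eq hAA1 hc hcnt'
    refine ⟨B, x, hP.mono (hBA1.trans (Finset.filter_subset _ _)), hBc, ?_⟩
    have h1 : ∑ p ∈ B, dist p x ^ 2 = ∑ p ∈ B \ A, dist p x ^ 2 + ∑ p ∈ A, dist p x ^ 2 :=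
      (Finset.sum_sdiff hAB).symm
    have h2 : ∑ p ∈ B \ A, dist p x ^ 2 ≤ (B \ A).card * (R + 2) ^ 2 := by
      rw [← nsmul_eq_mul]
      apply Finset.sum_le_card_nsmul
      intro p hp
      have := hBA1 (Finset.sdiff_subset hp)
      rw [hA1, Finset.mem_filter] at this
      have h0 := dist_nonneg (x := p) (y := x)
      have := this.2
      gcongr
    have h3 : ((B \ A).card : ℝ) = n - A.card := by
      rw [Finset.card_sdiff_of_subset hAB, hBc, Nat.cast_sub hc]
    rw [h3] at h2
    have h4 : (0 : ℝ) ≤ n - A.card := by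
      rw [sub_nonneg]; exact_mod_cast hc
    have h5 : ((n : ℝ) - A.card) * (4 * R + 4) ≤ 24 * n := by
      rcases lt_or_ge R 2 with hR2 | hR2
      · have hA0 : (0 : ℝ) ≤ A.card := by positivity
        nlinarith
      · have h6 := hcnt (R - 2) (by linarith) (by linarith)
        have h7 : R - 2 + 2 = R := by ring
        rw [h7] at h6
        have h8 : dens * (R - 2) ^ 3 ≤ A.card := h6
        calc ((n : ℝ) - A.card) * (4 * R + 4) ≤
              (dens * R ^ 3 - dens * (R - 2) ^ 3) * (4 * R + 4) := by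
                apply mul_le_mul_of_nonneg_right _ (by linarith)
                rw [hDR]; linarith
          _ = dens * (24 * R ^ 3 - (24 * R ^ 2 + 16 * R - 32)) := by ring
          _ ≤ dens * (24 * R ^ 3) := by
                apply mul_le_mul_of_nonneg_left _ hd.le
                nlinarith
          _ = 24 * (dens * R ^ 3) := by ring
          _ = 24 * n := by rw [hDR]
    rw [h1]
    nlinarith
  · -- drop points
    have hA2c : A2.card ≤ n := by
      rcases lt_or_ge R 2 with h2 | h2
      · have : A2 = ∅ := by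
          rw [hA2, Finset.filter_eq_empty_iff]
          intro p _ hp
          have := dist_nonneg (x := p) (y := x)
          linarith
        rw [this]; simp
      · have h1 := cnt_le hP x (by linarith : (0 : ℝ) ≤ R - 2)
        have h3 : (R - 2 + 2) = R := by ring
        rw [h3, hDR] at h1
        exact_mod_cast h1
    obtain ⟨B, hA2B, hBA, hBc⟩ := Finset.exists_subsuperset_card_eq hA2A hA2c hc.le
    refine ⟨B, x, hP.mono (hBA.trans (Finset.filter_subset _ _)), hBc, ?_⟩
    have h1 : ∑ p ∈ A, dist p x ^ 2 = ∑ p ∈ A \ B, dist p x ^ 2 + ∑ p ∈ B, dist p x ^ 2 :=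
      (Finset.sum_sdiff hBA).symm
    have h3 : ((A \ B).card : ℝ) = A.card - n := by
      rw [Finset.card_sdiff_of_subset hBA, hBc, Nat.cast_sub hc.le]
    have h40 : (0 : ℝ) ≤ (A.card : ℝ) - n := by
      rw [sub_nonneg]; exact_mod_cast hc.le
    have hAc : (A.card : ℝ) - n ≤ dens * (6 * R ^ 2 + 12 * R + 8) := by
      have h5 : (A.card : ℝ) ≤ dens * (R + 2) ^ 3 := cnt_le hP x hR0
      have h6 : dens * (R + 2) ^ 3 = dens * R ^ 3 + dens * (6 * R ^ 2 + 12 * R + 8) := by ring
      rw [h6, hDR] at h5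
      linarith
    rcases lt_or_ge R 2 with hR2 | hR2
    · have h2 : 0 ≤ ∑ p ∈ A \ B, dist p x ^ 2 := Finset.sum_nonneg (fun p _ => by positivity)
      have h4 : ((A.card : ℝ) - n) * R ^ 2 ≤ 48 * n := by
        calc ((A.card : ℝ) - n) * R ^ 2 ≤ (dens * (6 * R ^ 2 + 12 * R + 8)) * R ^ 2 := by
              gcongr
          _ = dens * (R ^ 2 * (6 * R ^ 2 + 12 * R + 8)) := by ring
          _ ≤ dens * (48 * R ^ 3) := by
              apply mul_le_mul_of_nonneg_left _ hd.le
              have : 6 * R ^ 2 + 12 * R + 8 ≤ 48 * R := by nlinarith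
              nlinarith [sq_nonneg R]
          _ = 48 * (dens * R ^ 3) := by ring
          _ = 48 * n := by rw [hDR]
      nlinarith
    · have h2 : (A \ B).card * (R ^ 2 - 4 * R + 4) ≤ ∑ p ∈ A \ B, dist p x ^ 2 := by
        rw [← nsmul_eq_mul]
        apply Finset.card_nsmul_le_sum
        intro p hp
        rw [Finset.mem_sdiff] at hp
        have h5 : R - 2 < dist p x := by
          by_contra hcon
          apply hp.2
          apply hA2B
          rw [hA2, Finset.mem_filter]
          have := hp.1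
          rw [hA, Finset.mem_filter] at this
          exact ⟨this.1, not_lt.1 hcon⟩
        nlinarith
      rw [h3] at h2
      have h4 : ((A.card : ℝ) - n) * (4 * R - 4) ≤ 48 * n := by
        calc ((A.card : ℝ) - n) * (4 * R - 4) ≤
              (dens * (6 * R ^ 2 + 12 * R + 8)) * (4 * R - 4) := by
                apply mul_le_mul_of_nonneg_right hAc (by linarith)
          _ = dens * (24 * R ^ 3 + 24 * R ^ 2 - 16 * R - 32) := by ring
          _ ≤ dens * (48 * R ^ 3) := by
              apply mul_le_mul_of_nonneg_left _ hd.le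
              nlinarith [mul_nonneg (sq_nonneg R) (by linarith : (0:ℝ) ≤ R - 1)]
          _ = 48 * (dens * R ^ 3) := by ring
          _ = 48 * n := by rw [hDR]
      nlinarith

/-- All values of the sum of the squared distances. -/
def moments (n : ℕ) : Set ℝ :=
  {s | ∃ (P : Fin n → E3) (O : E3),
    (∀ i j, i ≠ j → 2 ≤ dist (P i) (P j)) ∧ s = ∑ i, dist O (P i) ^ 2}

/-- The possible numbers of 2-separated points in the closed ball of radius `R`. -/
def ballNumbers (R : ℝ) : Set ℕ :=
  {k | ∃ P : Fin k → E3, (∀ i j, i ≠ j → 2 ≤ dist (P i) (P j)) ∧ ∀ i, ‖P i‖ ≤ R}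

lemma inj_of_sep {k : ℕ} {P : Fin k → E3} (hP : ∀ i j, i ≠ j → 2 ≤ dist (P i) (P j)) :
    Function.Injective P := by
  intro i j hij
  by_contra h
  have := hP i j h
  rw [hij, dist_self] at this
  linarith

lemma sep_image {k : ℕ} {P : Fin k → E3} (hP : ∀ i j, i ≠ j → 2 ≤ dist (P i) (P j)) :
    Sep (Finset.univ.image P) := by
  intro x hx y hy hxy
  simp only [Finset.mem_image, Finset.mem_univ, true_and] at hx hy
  obtain ⟨i, rfl⟩ := hx
  obtain ⟨j, rfl⟩ := hy
  exact hP i j (fun h => hxy (by rw [h]))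

lemma ballNumbers_eq (R : ℝ) : ballNumbers R = cards R := by
  ext k
  constructor
  · rintro ⟨P, hP, hR⟩
    refine ⟨Finset.univ.image P, sep_image hP, ?_, ?_⟩
    · intro p hp
      simp only [Finset.mem_image, Finset.mem_univ, true_and] at hp
      obtain ⟨i, rfl⟩ := hp
      rw [dist_zero_right]
      exact hR i
    · rw [Finset.card_image_of_injective _ (inj_of_sep hP)]
      simp
  · rintro ⟨A, hA, hR, rfl⟩
    refine ⟨fun i => (A.equivFin.symm i : E3), ?_, ?_⟩
    · intro i j hij
      apply hA _ (Subtype.mem _) _ (Subtype.mem _)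
      intro h
      exact hij (A.equivFin.symm.injective (Subtype.ext h))
    · intro i
      have := hR _ (A.equivFin.symm i).2
      rwa [dist_zero_right] at this

lemma tendsto_ballNumbers :
    Tendsto (fun R : ℝ => ((sSup (ballNumbers R) : ℕ) : ℝ) / R ^ 3) atTop (𝓝 dens) := by
  simp only [ballNumbers_eq]
  exact tendsto_pack

lemma moments_lower {n : ℕ} {s : ℝ} (hs : s ∈ moments n) :
    3 / 5 * (n * rad n ^ 2) - 4 * (n * rad n) ≤ s := by
  obtain ⟨P, O, hP, rfl⟩ := hs
  have hinj := inj_of_sep hP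
  have hc : (Finset.univ.image P).card = n := by
    rw [Finset.card_image_of_injective _ hinj]; simp
  have h1 := moment_ge (sep_image hP) O (R := rad n) (rad_nonneg (by positivity))
    (by rw [hc]; exact rad_cube (by positivity))
  rw [hc, Finset.sum_image (fun i _ j _ h => hinj h)] at h1
  simpa only [dist_comm] using h1

lemma exists_moment {n : ℕ} (hn : 1 ≤ n) :
    ∃ s ∈ moments n, s ≤ 3 / 5 * (n * rad n ^ 2) + 49 * n := by
  obtain ⟨B, x, hB, hc, hle⟩ := exists_cluster hn
  subst hc
  refine ⟨_, ⟨fun i => (B.equivFin.symm i : E3), x, ?_, rfl⟩, ?_⟩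
  · intro i j hij
    apply hB _ (Subtype.mem _) _ (Subtype.mem _)
    intro h
    exact hij (B.equivFin.symm.injective (Subtype.ext h))
  · refine le_trans (le_of_eq ?_) hle
    rw [Equiv.sum_comp B.equivFin.symm (fun p : B => dist x (p : E3) ^ 2),
      Finset.sum_coe_sort B (fun p => dist x p ^ 2)]
    simp only [dist_comm]

lemma rad_mul (n : ℕ) : (n : ℝ) * rad n = dens ^ (-(1 : ℝ) / 3) * (n : ℝ) ^ ((4 : ℝ) / 3) := by
  rcases Nat.eq_zero_or_pos n with h0 | hpos
  · subst h0
    rw [Nat.cast_zero, zero_mul, Real.zero_rpow (by norm_num), mul_zero]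
  · have hn : (0 : ℝ) < n := by exact_mod_cast hpos
    unfold rad
    rw [Real.div_rpow hn.le dens_pos.le,
      show (-(1 : ℝ) / 3) = -((1 : ℝ) / 3) by ring, Real.rpow_neg dens_pos.le,
      show ((4 : ℝ) / 3) = 1 + 1 / 3 by norm_num, Real.rpow_add hn, Real.rpow_one]
    field_simp

lemma rad_sq_mul (n : ℕ) :
    (n : ℝ) * rad n ^ 2 = dens ^ (-(2 : ℝ) / 3) * (n : ℝ) ^ ((5 : ℝ) / 3) := by
  rcases Nat.eq_zero_or_pos n with h0 | hpos
  · subst h0
    rw [Nat.cast_zero, zero_mul, Real.zero_rpow (by norm_num), mul_zero]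
  · have hn : (0 : ℝ) < n := by exact_mod_cast hpos
    unfold rad
    rw [← Real.rpow_natCast, ← Real.rpow_mul (div_nonneg hn.le dens_pos.le),
      Real.div_rpow hn.le dens_pos.le,
      show (-(2 : ℝ) / 3) = -((2 : ℝ) / 3) by ring, Real.rpow_neg dens_pos.le,
      show ((5 : ℝ) / 3) = 1 + 2 / 3 by norm_num, Real.rpow_add hn, Real.rpow_one]
    norm_num
    field_simp

/-- The two-sided estimate. -/
theorem estimate {n : ℕ} (hn : 1 ≤ n) :
    3 / 5 * dens ^ (-(2 : ℝ) / 3) * (n : ℝ) ^ ((5 : ℝ) / 3) -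
        4 * dens ^ (-(1 : ℝ) / 3) * (n : ℝ) ^ ((4 : ℝ) / 3) ≤ sInf (moments n) ∧
      sInf (moments n) ≤ 3 / 5 * dens ^ (-(2 : ℝ) / 3) * (n : ℝ) ^ ((5 : ℝ) / 3) + 49 * n := by
  have e1 := rad_mul n
  have e2 := rad_sq_mul n
  obtain ⟨s, hs, hle⟩ := exists_moment hn
  constructor
  · apply le_csInf ⟨s, hs⟩
    intro t ht
    have := moments_lower ht
    rw [e1, e2] at this
    linarith
  · have hb : BddBelow (moments n) :=
      ⟨3 / 5 * (n * rad n ^ 2) - 4 * (n * rad n), fun t ht => moments_lower ht⟩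
    have := csInf_le hb hs
    rw [e2] at hle
    linarith

end Pool.Agent.Moser3
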