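import Pool.Agent.Moser3.Low

set_option autoImplicit false

/-! Existence of good clusters. -/

namespace Pool.Agent.Moser3

open MeasureTheory Metric Filter Topology

/-- The truncated second moment. -/
noncomputable def Phi (P : Finset E3) (R : ℝ) (x : E3) : ℝ :=
  ∑ p ∈ P, max (R ^ 2 - dist p x ^ 2) 0

lemma radial {R : ℝ} (hR : 0 ≤ R) :
    ∫ y in Set.Ioi (0 : ℝ), y ^ 2 * max (R ^ 2 - y ^ 2) 0 = 2 / 15 * R ^ 5 := by
  have h1 : ∫ y in Set.Ioi (0 : ℝ), y ^ 2 * max (R ^ 2 - y ^ 2) 0 =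
      ∫ y in Set.Ioc (0 : ℝ) R, y ^ 2 * max (R ^ 2 - y ^ 2) 0 := by
    apply setIntegral_eq_of_subset_of_forall_diff_eq_zero measurableSet_Ioi Set.Ioc_subset_Ioi_self
    rintro y ⟨hy1, hy2⟩
    have hy1' : (0 : ℝ) < y := hy1
    have h3 : R < y := by
      by_contra h
      exact hy2 ⟨hy1', not_lt.1 h⟩
    rw [max_eq_right (by nlinarith), mul_zero]
  have h2 : ∫ y in Set.Ioc (0 : ℝ) R, y ^ 2 * max (R ^ 2 - y ^ 2) 0 =
      ∫ y in Set.Ioc (0 : ℝ) R, (R ^ 2 * y ^ 2 - y ^ 4) := by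
    apply setIntegral_congr_fun measurableSet_Ioc
    intro y hy
    simp only
    rw [max_eq_left (by nlinarith [hy.1, hy.2])]
    ring
  rw [h1, h2, ← intervalIntegral.integral_of_le hR]
  have hF : ∀ t ∈ Set.uIcc 0 R, HasDerivAt
      (fun t : ℝ => R ^ 2 / 3 * t ^ 3 - 1 / 5 * t ^ 5) (R ^ 2 * t ^ 2 - t ^ 4) t := by
    intro t _
    have d1 : HasDerivAt (fun t : ℝ => R ^ 2 / 3 * t ^ 3) (R ^ 2 / 3 * (3 * t ^ 2)) t :=
      ((hasDerivAt_pow 3 t).const_mul (R ^ 2 / 3)).congr_deriv (by norm_num)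
    have d2 : HasDerivAt (fun t : ℝ => 1 / 5 * t ^ 5) (1 / 5 * (5 * t ^ 4)) t :=
      ((hasDerivAt_pow 5 t).const_mul (1 / 5 : ℝ)).congr_deriv (by norm_num)
    refine (d1.sub d2).congr_deriv ?_
    ring
  rw [intervalIntegral.integral_eq_sub_of_hasDerivAt hF
    ((by fun_prop : Continuous (fun t : ℝ => R ^ 2 * t ^ 2 - t ^ 4)).intervalIntegrable _ _)]
  ring

lemma integral_bump (p : E3) {R : ℝ} (hR : 0 ≤ R) :
    ∫ x : E3, max (R ^ 2 - dist p x ^ 2) 0 = 2 / 5 * om * R ^ 5 := by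
  have h1 : (fun x : E3 => max (R ^ 2 - dist p x ^ 2) 0) =
      fun x : E3 => (fun y : E3 => max (R ^ 2 - ‖y‖ ^ 2) 0) (x - p) := by
    ext x
    rw [dist_comm, dist_eq_norm]
  rw [h1, integral_sub_right_eq_self (fun y : E3 => max (R ^ 2 - ‖y‖ ^ 2) 0) p]
  have h2 := integral_fun_norm_addHaar (volume : Measure E3) (fun r : ℝ => max (R ^ 2 - r ^ 2) 0)
  rw [h2]
  simp only [finrank_euclideanSpace, Fintype.card_fin, smul_eq_mul, nsmul_eq_mul]
  have h3 := radial hR
  norm_num at h3 ⊢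
  rw [h3]
  unfold om
  ring

lemma integrable_bump (p : E3) {R : ℝ} (hR : 0 ≤ R) :
    Integrable (fun x : E3 => max (R ^ 2 - dist p x ^ 2) 0) (volume : Measure E3) := by
  apply Continuous.integrable_of_hasCompactSupport
  · fun_prop
  · apply HasCompactSupport.intro (isCompact_closedBall p R)
    intro x hx
    rw [mem_closedBall, not_le, dist_comm] at hx
    rw [max_eq_right]
    nlinarith

lemma integrable_Phi (P : Finset E3) {R : ℝ} (hR : 0 ≤ R) :
    Integrable (Phi P R) (volume : Measure E3) := by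
  unfold Phi
  exact integrable_finsetSum _ (fun p _ => integrable_bump p hR)

lemma integral_Phi (P : Finset E3) {R : ℝ} (hR : 0 ≤ R) :
    ∫ x, Phi P R x = P.card * (2 / 5 * om * R ^ 5) := by
  unfold Phi
  rw [integral_finsetSum _ (fun p _ => integrable_bump p hR)]
  simp [integral_bump _ hR]

lemma Phi_eq (P : Finset E3) {R : ℝ} (hR : 0 ≤ R) (x : E3) :
    Phi P R x = ∑ p ∈ P.filter (fun p => dist p x ≤ R), (R ^ 2 - dist p x ^ 2) := by
  unfold Phi
  rw [Finset.sum_filter]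
  apply Finset.sum_congr rfl
  intro p _
  by_cases h : dist p x ≤ R
  · rw [if_pos h, max_eq_left]
    have := dist_nonneg (x := p) (y := x)
    nlinarith
  · rw [if_neg h, max_eq_right]
    rw [not_le] at h
    nlinarith

/-- The radius of a number: `dens * (rad m)^3 = m`. -/
noncomputable def rad (m : ℝ) : ℝ := (m / dens) ^ ((1 : ℝ) / 3)

lemma rad_nonneg {m : ℝ} (hm : 0 ≤ m) : 0 ≤ rad m :=
  Real.rpow_nonneg (div_nonneg hm dens_pos.le) _

lemma rad_cube {m : ℝ} (hm : 0 ≤ m) : dens * rad m ^ 3 = m := by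
  unfold rad
  rw [← Real.rpow_natCast, ← Real.rpow_mul (div_nonneg hm dens_pos.le)]
  norm_num
  field_simp [dens_pos.ne']

lemma cube_le_cube {a b : ℝ} (hb : 0 ≤ b) (h : a ^ 3 ≤ b ^ 3) : a ≤ b := by
  by_contra hc
  rw [not_le] at hc
  have : b ^ 3 < a ^ 3 := by gcongr
  linarith

lemma rad_le {m R : ℝ} (hm : 0 ≤ m) (hR : 0 ≤ R) (h : m ≤ dens * R ^ 3) : rad m ≤ R := by
  apply cube_le_cube hR
  rw [← rad_cube hm] at h
  exact le_of_mul_le_mul_left h dens_pos

lemma young {t R : ℝ} (ht : 0 ≤ t) (hR : 0 ≤ R) :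
    t ^ 3 * R ^ 2 - 3 / 5 * t ^ 5 ≤ 2 / 5 * R ^ 5 := by
  have : 0 ≤ (t - R) ^ 2 * (3 * t ^ 3 + 6 * t ^ 2 * R + 4 * t * R ^ 2 + 2 * R ^ 3) := by positivity
  nlinarith

/-- A good centre: in an optimal packing of a large ball there is a centre `x` at which the truncated
second moment has at least (almost) its mean value, and the numbers of points near `x` are controlled. -/
lemma exists_good {R : ℝ} (hR : 0 ≤ R) :
    ∃ (P : Finset E3) (x : E3), Sep P ∧
      (∀ r : ℝ, 0 ≤ r → r ≤ R → dens * r ^ 3 ≤ cnt P x (r + 2)) ∧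
      2 / 5 * dens * R ^ 5 - dens * R ^ 3 ≤ Phi P R x := by
  set S := (R + 2) * (2 * R ^ 2 + 1) with hS
  have hS0 : (0 : ℝ) < S := by positivity
  have hSR : R + 2 ≤ S := by
    rw [hS]
    nlinarith [mul_nonneg (by linarith : (0:ℝ) ≤ R + 2) (sq_nonneg R)]
  set T := S + R with hT
  obtain ⟨P, hP, hPT, hPc⟩ := pack_mem T
  have hd := dens_pos
  have hom := om_pos
  have hfew : ∀ x : E3, dist x 0 ≤ S → ∀ r : ℝ, 0 ≤ r → r ≤ R →
      dens * r ^ 3 ≤ cnt P x (r + 2) := by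
    intro x hx r hr0 hr
    refine (dens_le_pack hr0).trans ?_
    exact_mod_cast replace hP hPT hPc (R := r) (by linarith)
  have hcore : dens * (S - R - 2) ^ 3 ≤ cnt P 0 (S - R) := by
    have h1 := replace hP hPT hPc (R := S - R - 2) (x := 0) (by rw [dist_self]; linarith)
    have h2 : S - R - 2 + 2 = S - R := by ring
    rw [h2] at h1
    refine (dens_le_pack (by linarith)).trans ?_
    exact_mod_cast h1
  set X := closedBall (0 : E3) S with hX
  have hXvol : (volume : Measure E3).real X = S ^ 3 * om := real_cball _ hS0.le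
  have hXne : (volume : Measure E3) X ≠ ⊤ := measure_closedBall_lt_top.ne
  have hX0 : (volume : Measure E3) X ≠ 0 := by
    intro h0
    have : (volume : Measure E3).real X = 0 := by rw [Measure.real, h0]; simp
    rw [hXvol] at this
    exact absurd this (mul_pos (by positivity) hom).ne'
  have hint : (cnt P 0 (S - R) : ℝ) * (2 / 5 * om * R ^ 5) ≤ ∫ x in X, Phi P R x := by
    unfold Phi
    rw [integral_finsetSum _ (fun p _ => (integrable_bump p hR).integrableOn)]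
    have h1 : ∀ p ∈ P.filter (fun p => dist p 0 ≤ S - R),
        (2 / 5 * om * R ^ 5) ≤ ∫ x in X, max (R ^ 2 - dist p x ^ 2) 0 := by
      intro p hp
      rw [Finset.mem_filter] at hp
      rw [← integral_bump p hR]
      apply le_of_eq
      symm
      apply setIntegral_eq_integral_of_forall_compl_eq_zero
      intro x hx
      rw [hX, mem_closedBall, not_le] at hx
      have h2 := dist_triangle x p 0
      rw [dist_comm x p] at h2
      have h3 : R < dist p x := by linarith [hp.2]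
      rw [max_eq_right]
      nlinarith
    have h2 : (cnt P 0 (S - R) : ℝ) * (2 / 5 * om * R ^ 5) ≤
        ∑ p ∈ P.filter (fun p => dist p 0 ≤ S - R), ∫ x in X, max (R ^ 2 - dist p x ^ 2) 0 := by
      unfold cnt
      rw [← nsmul_eq_mul]
      exact Finset.card_nsmul_le_sum _ _ _ h1
    refine h2.trans ?_
    apply Finset.sum_le_sum_of_subset_of_nonneg (Finset.filter_subset _ _)
    intro p _ _
    exact setIntegral_nonneg measurableSet_closedBall (fun x _ => le_max_right _ _)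
  have hgi : IntegrableOn (fun x => -Phi P R x) X (volume : Measure E3) :=
    (integrable_Phi P hR).neg.integrableOn
  obtain ⟨x, hxX, hx⟩ := exists_le_setAverage hX0 hXne hgi
  rw [hX, mem_closedBall] at hxX
  refine ⟨P, x, hP, hfew x hxX, ?_⟩
  rw [setAverage_eq, smul_eq_mul, hXvol, integral_neg] at hx
  have h1 : (S ^ 3 * om)⁻¹ * ∫ a in X, Phi P R a ≤ Phi P R x := by linarith
  rw [inv_mul_le_iff₀ (by positivity)] at h1
  have h2 := hint.trans h1
  have h3 : dens * (S - R - 2) ^ 3 * (2 / 5 * om * R ^ 5) ≤ S ^ 3 * om * Phi P R x := by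
    refine le_trans ?_ h2
    gcongr
  have h4 : dens * (S - R - 2) ^ 3 * (2 / 5 * R ^ 5) ≤ S ^ 3 * Phi P R x := by
    have : om * (dens * (S - R - 2) ^ 3 * (2 / 5 * R ^ 5)) ≤ om * (S ^ 3 * Phi P R x) := by
      nlinarith
    exact le_of_mul_le_mul_left this hom
  -- compare with S ^ 3 * (2/5 dens R^5 - dens R^3)
  have h5 : S ^ 3 * (2 / 5 * dens * R ^ 5 - dens * R ^ 3) ≤
      dens * (S - R - 2) ^ 3 * (2 / 5 * R ^ 5) := by
    have h6 : S ^ 3 - (S - R - 2) ^ 3 ≤ 3 * S ^ 2 * (R + 2) := by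
      have : 3 * S ^ 2 * (R + 2) - (S ^ 3 - (S - R - 2) ^ 3) =
          (R + 2) ^ 2 * (3 * S - (R + 2)) := by ring
      have : 0 ≤ (R + 2) ^ 2 * (3 * S - (R + 2)) := by
        apply mul_nonneg (by positivity); linarith
      linarith
    have h7 : 3 * S ^ 2 * (R + 2) * (2 / 5 * R ^ 2) ≤ S ^ 3 := by
      have h8 : 6 / 5 * ((R + 2) * R ^ 2) ≤ S := by
        rw [hS]; nlinarith [mul_nonneg (by linarith : (0:ℝ) ≤ R + 2) (sq_nonneg R)]
      have : S ^ 2 * (6 / 5 * ((R + 2) * R ^ 2)) ≤ S ^ 2 * S := by gcongr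
      nlinarith
    have hR3 : (0 : ℝ) ≤ R ^ 3 := by positivity
    have hR5 : (0 : ℝ) ≤ 2 / 5 * R ^ 5 := by positivity
    have h9 : (S ^ 3 - (S - R - 2) ^ 3) * (2 / 5 * R ^ 5) ≤ S ^ 3 * R ^ 3 := by
      calc (S ^ 3 - (S - R - 2) ^ 3) * (2 / 5 * R ^ 5) ≤
            (3 * S ^ 2 * (R + 2)) * (2 / 5 * R ^ 5) := by gcongr
        _ = (3 * S ^ 2 * (R + 2) * (2 / 5 * R ^ 2)) * R ^ 3 := by ring
        _ ≤ S ^ 3 * R ^ 3 := by gcongr
    have h10 : dens * ((S ^ 3 - (S - R - 2) ^ 3) * (2 / 5 * R ^ 5)) ≤ dens * (S ^ 3 * R ^ 3) := by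
      gcongr
    nlinarith
  have h11 : S ^ 3 * (2 / 5 * dens * R ^ 5 - dens * R ^ 3) ≤ S ^ 3 * Phi P R x := h5.trans h4
  exact le_of_mul_le_mul_left h11 (by positivity)

end Pool.Agent.Moser3
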