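import Mathlib

set_option autoImplicit false

/-! Volume and averaging facts for 2-separated point sets of three-dimensional space. -/

namespace Pool.Agent.Moser3

open MeasureTheory Metric

/-- Three-dimensional Euclidean space. -/
abbrev E3 := EuclideanSpace ℝ (Fin 3)

/-- All distances between different points are at least `2`. -/
def Sep (A : Finset E3) : Prop := ∀ x ∈ A, ∀ y ∈ A, x ≠ y → 2 ≤ dist x y

/-- Volume of the unit ball. -/
noncomputable def om : ℝ := (volume : Measure E3).real (ball 0 1)

lemma om_pos : 0 < om := by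
  unfold om
  rw [Measure.real, ENNReal.toReal_pos_iff]
  exact ⟨measure_ball_pos _ _ one_pos, measure_ball_lt_top⟩

lemma real_cball (x : E3) {r : ℝ} (hr : 0 ≤ r) :
    (volume : Measure E3).real (closedBall x r) = r ^ 3 * om := by
  rw [Measure.addHaar_real_closedBall _ _ hr]
  simp [om]

lemma real_ball (x : E3) {r : ℝ} (hr : 0 ≤ r) :
    (volume : Measure E3).real (ball x r) = r ^ 3 * om := by
  rw [Measure.real, Measure.addHaar_ball _ _ hr, ENNReal.toReal_mul,
    ENNReal.toReal_ofReal (by positivity)]
  simp [om, Measure.real]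

lemma Sep.mono {A B : Finset E3} (hB : Sep B) (h : A ⊆ B) : Sep A :=
  fun x hx y hy hxy => hB x (h hx) y (h hy) hxy

/-- Translate of a separated set. -/
lemma Sep.image_add {A : Finset E3} (hA : Sep A) (v : E3) :
    Sep (A.image (fun p => v + p)) := by
  intro x hx y hy hxy
  simp only [Finset.mem_image] at hx hy
  obtain ⟨a, ha, rfl⟩ := hx
  obtain ⟨b, hb, rfl⟩ := hy
  have : a ≠ b := fun h => hxy (by rw [h])
  simpa using hA a ha b hb this

lemma card_image_add (A : Finset E3) (v : E3) :
    (A.image (fun p => v + p)).card = A.card :=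
  Finset.card_image_of_injective _ (add_right_injective v)

/-- Volume bound: a separated set in the ball of radius `R` has at most `(R+1)^3` elements. -/
lemma card_le_volume {A : Finset E3} (hA : Sep A) {R : ℝ} (hR : 0 ≤ R)
    (h : ∀ p ∈ A, dist p 0 ≤ R) : (A.card : ℝ) ≤ (R + 1) ^ 3 := by
  have hdisj : (A : Set E3).PairwiseDisjoint (fun p => ball p 1) := by
    intro x hx y hy hxy
    exact ball_disjoint_ball (by have := hA x hx y hy hxy; linarith)
  have h1 : (volume : Measure E3) (⋃ p ∈ A, ball p 1) = ∑ p ∈ A, volume (ball p (1 : ℝ)) :=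
    measure_biUnion_finset hdisj (fun p _ => measurableSet_ball)
  have h2 : (volume : Measure E3) (⋃ p ∈ A, ball p 1) ≤ volume (ball (0 : E3) (R + 1)) := by
    apply measure_mono
    intro z hz
    simp only [Set.mem_iUnion] at hz
    obtain ⟨p, hp, hz⟩ := hz
    rw [mem_ball] at hz ⊢
    have := h p hp
    have := dist_triangle z p 0
    linarith
  rw [h1] at h2
  have h3 : ∀ p : E3, (volume : Measure E3) (ball p (1 : ℝ)) = ENNReal.ofReal om := by
    intro p
    have := real_ball p (zero_le_one : (0 : ℝ) ≤ 1)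
    rw [one_pow, one_mul] at this
    rw [← this, Measure.real, ENNReal.ofReal_toReal measure_ball_lt_top.ne]
  have h4 : (volume : Measure E3) (ball (0 : E3) (R + 1)) = ENNReal.ofReal ((R + 1) ^ 3 * om) := by
    rw [← real_ball (0 : E3) (by linarith : (0 : ℝ) ≤ R + 1), Measure.real,
      ENNReal.ofReal_toReal measure_ball_lt_top.ne]
  rw [h4] at h2
  simp only [h3, Finset.sum_const, nsmul_eq_mul] at h2
  have h5 : (A.card : ENNReal) * ENNReal.ofReal om = ENNReal.ofReal (A.card * om) := by
    rw [ENNReal.ofReal_mul (by positivity)]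
    simp
  rw [h5, ENNReal.ofReal_le_ofReal_iff (mul_nonneg (by positivity) om_pos.le)] at h2
  exact le_of_mul_le_mul_right h2 om_pos

/-- Number of points of `A` at distance at most `r` from `x`. -/
noncomputable def cnt (A : Finset E3) (x : E3) (r : ℝ) : ℕ :=
  (A.filter (fun p => dist p x ≤ r)).card

lemma cnt_eq_sum (A : Finset E3) (x : E3) (r : ℝ) :
    (cnt A x r : ℝ) = ∑ p ∈ A, (closedBall p r).indicator (fun _ => (1 : ℝ)) x := by
  unfold cnt
  rw [Finset.card_filter]
  push_cast
  apply Finset.sum_congr rfl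
  intro p _
  by_cases h : dist p x ≤ r
  · rw [Set.indicator_of_mem (by rwa [mem_closedBall, dist_comm]), if_pos h]
  · rw [Set.indicator_of_notMem (by rwa [mem_closedBall, dist_comm]), if_neg h]

lemma integrable_ind (p : E3) (r : ℝ) :
    Integrable ((closedBall p r).indicator (fun _ => (1 : ℝ))) (volume : Measure E3) :=
  (integrable_indicator_iff measurableSet_closedBall).2
    (integrableOn_const measure_closedBall_lt_top.ne)

lemma integral_ind (p : E3) {r : ℝ} (hr : 0 ≤ r) :
    ∫ x, (closedBall p r).indicator (fun _ => (1 : ℝ)) x = r ^ 3 * om := by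
  rw [integral_indicator measurableSet_closedBall]
  simp [real_cball p hr]

lemma integrable_cnt (A : Finset E3) (r : ℝ) :
    Integrable (fun x => (cnt A x r : ℝ)) (volume : Measure E3) := by
  simp only [cnt_eq_sum]
  exact integrable_finsetSum _ (fun p _ => integrable_ind p r)

lemma integral_cnt (A : Finset E3) {r : ℝ} (hr : 0 ≤ r) :
    ∫ x, (cnt A x r : ℝ) = A.card * (r ^ 3 * om) := by
  simp only [cnt_eq_sum]
  rw [integral_finsetSum _ (fun p _ => integrable_ind p r)]
  simp [integral_ind _ hr]

/-- Averaging, first form. -/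
lemma avg_ge (P : Finset E3) {S s k : ℝ} (hS : 0 ≤ S) (hs : 0 ≤ s)
    (h : ∀ x : E3, dist x 0 ≤ S → k ≤ cnt P x s) : k * S ^ 3 ≤ P.card * s ^ 3 := by
  have h1 : ∫ x in closedBall (0 : E3) S, k ≤ ∫ x in closedBall (0 : E3) S, (cnt P x s : ℝ) := by
    apply setIntegral_mono_on (integrableOn_const measure_closedBall_lt_top.ne)
      (integrable_cnt P s).integrableOn measurableSet_closedBall
    intro x hx
    exact h x hx
  have h2 : ∫ x in closedBall (0 : E3) S, (cnt P x s : ℝ) ≤ ∫ x, (cnt P x s : ℝ) :=
    setIntegral_le_integral (integrable_cnt P s)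
      (Filter.Eventually.of_forall (fun x => by positivity))
  rw [integral_cnt P hs] at h2
  simp only [setIntegral_const, smul_eq_mul, real_cball (0 : E3) hS] at h1
  have h3 := h1.trans h2
  have h4 : (k * S ^ 3) * om ≤ (P.card * s ^ 3) * om := by linarith
  exact le_of_mul_le_mul_right h4 om_pos

/-- Averaging, second form. -/
lemma avg_le (P : Finset E3) {T s k : ℝ} (hT : 0 ≤ T) (hs : 0 ≤ s)
    (hP : ∀ p ∈ P, dist p 0 ≤ T)
    (h : ∀ x : E3, (cnt P x s : ℝ) ≤ k) : P.card * s ^ 3 ≤ k * (T + s) ^ 3 := by
  have h0 : ∫ x in closedBall (0 : E3) (T + s), (cnt P x s : ℝ) = ∫ x, (cnt P x s : ℝ) := by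
    apply setIntegral_eq_integral_of_forall_compl_eq_zero
    intro x hx
    rw [mem_closedBall, not_le] at hx
    unfold cnt
    rw [Nat.cast_eq_zero, Finset.card_eq_zero, Finset.filter_eq_empty_iff]
    intro p hp hd
    have h1 := hP p hp
    have h2 := dist_triangle x p 0
    rw [dist_comm p x] at hd
    linarith
  have h1 : ∫ x in closedBall (0 : E3) (T + s), (cnt P x s : ℝ) ≤
      ∫ x in closedBall (0 : E3) (T + s), k := by
    apply setIntegral_mono_on (integrable_cnt P s).integrableOn
      (integrableOn_const measure_closedBall_lt_top.ne) measurableSet_closedBall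
    intro x _
    exact h x
  rw [h0, integral_cnt P hs] at h1
  simp only [setIntegral_const, smul_eq_mul, real_cball (0 : E3) (add_nonneg hT hs)] at h1
  have h4 : (P.card * s ^ 3) * om ≤ (k * (T + s) ^ 3) * om := by linarith
  exact le_of_mul_le_mul_right h4 om_pos

end Pool.Agent.Moser3
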